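import Pool.Agent.Helper20.EP.Spec3

/-!
# EP, part INT: short intervals of `s` have small mass
-/

set_option autoImplicit false

open Polynomial Filter Topology

namespace Pool.Agent.Helper52.EP.INT

open Pool.Agent.Helper20.EP

lemma th_eval (f : ℝ[X]) (q : ℕ) (F : ℤ[X]) (n : ℕ) :
    (th f q F).eval (n : ℝ) = f.eval (n : ℝ) - ((F.eval (n : ℤ) : ℤ) : ℝ) / q := by
  unfold th
  have h : (F.map (Int.castRingHom ℝ)).eval (n : ℝ) = ((F.eval (n : ℤ) : ℤ) : ℝ) := by
    simp
  rw [eval_sub, eval_mul, eval_C, h]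
  ring

lemma th_coeff (f : ℝ[X]) (q : ℕ) (F : ℤ[X]) (j : ℕ) :
    (th f q F).coeff j = f.coeff j - (F.coeff j : ℝ) / q := by
  unfold th
  rw [coeff_sub, coeff_C_mul, coeff_map]
  simp only [eq_intCast]
  ring

lemma th_deg {f : ℝ[X]} {q : ℕ} {F : ℤ[X]} (h : F.natDegree ≤ f.natDegree) :
    (th f q F).natDegree ≤ f.natDegree := by
  unfold th
  apply (natDegree_sub_le _ _).trans
  apply max_le le_rfl
  apply (natDegree_C_mul_le _ _).trans
  exact (natDegree_map_le).trans h

lemma sn_eq (f : ℝ[X]) (q : ℕ) (hq : 1 ≤ q) (F : ℤ[X]) (n : ℕ) :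
    (sn f q F n : ℝ) + q * (th f q F).eval (n : ℝ) = q * Int.fract (f.eval (n : ℝ)) := by
  have hq' : (q : ℝ) ≠ 0 := by positivity
  rw [th_eval]
  unfold sn
  push_cast
  rw [← Int.self_sub_floor]
  field_simp
  ring

open Classical in
lemma cnt_eq (N : ℕ) (P : ℕ → Prop) : cnt N P = (Nat.count (fun n => P (1 + n)) N : ℝ) := by
  unfold cnt
  congr 1
  rw [Nat.count_eq_card_filter_range]
  apply Finset.card_bij (fun n _ => n - 1)
  · intro n hn
    rw [Finset.mem_filter, Finset.mem_Icc] at hn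
    rw [Finset.mem_filter, Finset.mem_range]
    refine ⟨by omega, ?_⟩
    have : 1 + (n - 1) = n := by omega
    rw [this]; exact hn.2
  · intro n hn m hm h
    rw [Finset.mem_filter, Finset.mem_Icc] at hn hm
    omega
  · intro n hn
    rw [Finset.mem_filter, Finset.mem_range] at hn
    refine ⟨1 + n, ?_, by omega⟩
    rw [Finset.mem_filter, Finset.mem_Icc]
    exact ⟨by omega, hn.2⟩

open Classical in
lemma count_blocks (P : ℕ → Prop) (L : ℕ) (K : ℕ) :
    Nat.count (fun n => P (1 + n)) (K * L) =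
      ∑ i ∈ Finset.range K, Nat.count (fun t => P (1 + i * L + t)) L := by
  induction K with
  | zero => simp
  | succ K ih =>
    rw [Nat.succ_mul, Nat.count_add, ih, Finset.sum_range_succ]
    congr 2
    funext t
    rw [add_assoc]

open Classical in
lemma count_le_blocks (P : ℕ → Prop) (N L : ℕ) :
    Nat.count (fun n => P (1 + n)) N ≤
      ∑ i ∈ Finset.range (N / L), Nat.count (fun t => P (1 + i * L + t)) L + N % L := by
  have h : N = N / L * L + N % L := (Nat.div_add_mod' N L).symm
  conv_lhs => rw [h]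
  rw [Nat.count_add, count_blocks]
  exact Nat.add_le_add_left (Nat.count_le _) _

lemma pow_diff (N x y : ℝ) (hN : 0 ≤ N) (hx : |x| ≤ N) (hy : |y| ≤ N) (j : ℕ) :
    |x ^ j - y ^ j| * N ≤ j * N ^ j * |x - y| := by
  induction j with
  | zero => simp
  | succ j ih =>
    have e : x ^ (j + 1) - y ^ (j + 1) = x * (x ^ j - y ^ j) + (x - y) * y ^ j := by ring
    have hyj : |y| ^ j ≤ N ^ j := pow_le_pow_left₀ (abs_nonneg _) hy j
    calc |x ^ (j + 1) - y ^ (j + 1)| * N
        ≤ (|x| * |x ^ j - y ^ j| + |x - y| * |y| ^ j) * N := by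
          apply mul_le_mul_of_nonneg_right _ hN
          rw [e]
          apply (abs_add_le _ _).trans
          rw [abs_mul, abs_mul, abs_pow]
      _ ≤ (N * |x ^ j - y ^ j| + |x - y| * N ^ j) * N := by
          apply mul_le_mul_of_nonneg_right _ hN
          apply add_le_add
          · exact mul_le_mul_of_nonneg_right hx (abs_nonneg _)
          · exact mul_le_mul_of_nonneg_left hyj (abs_nonneg _)
      _ = N * (|x ^ j - y ^ j| * N) + |x - y| * N ^ j * N := by ring
      _ ≤ N * (j * N ^ j * |x - y|) + |x - y| * N ^ j * N := by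
          have := mul_le_mul_of_nonneg_left ih hN
          linarith
      _ = ((j + 1 : ℕ) : ℝ) * N ^ (j + 1) * |x - y| := by push_cast; ring

lemma th_var {f : ℝ[X]} {N q : ℕ} {F : ℤ[X]} {T : ℝ} (h : App f N q F T) (hN : 1 ≤ N)
    (x y : ℝ) (hx : |x| ≤ N) (hy : |y| ≤ N) :
    |(th f q F).eval x - (th f q F).eval y| * N ≤ (f.natDegree + 1) ^ 2 * T * |x - y| := by
  set D := f.natDegree with hD
  have hdeg : (th f q F).natDegree < D + 1 := Nat.lt_succ_of_le (th_deg h.deg)
  rw [eval_eq_sum_range' hdeg, eval_eq_sum_range' hdeg, ← Finset.sum_sub_distrib]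
  have hN0 : (0 : ℝ) ≤ N := Nat.cast_nonneg _
  calc |∑ j ∈ Finset.range (D + 1), ((th f q F).coeff j * x ^ j - (th f q F).coeff j * y ^ j)| * N
      ≤ (∑ j ∈ Finset.range (D + 1), |(th f q F).coeff j * x ^ j -
          (th f q F).coeff j * y ^ j|) * N :=
        mul_le_mul_of_nonneg_right (Finset.abs_sum_le_sum_abs _ _) hN0
    _ = ∑ j ∈ Finset.range (D + 1), |(th f q F).coeff j * x ^ j -
          (th f q F).coeff j * y ^ j| * N := Finset.sum_mul _ _ _
    _ ≤ ∑ j ∈ Finset.range (D + 1), (D + 1 : ℝ) * T * |x - y| := by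
        apply Finset.sum_le_sum
        intro j hj
        rw [Finset.mem_range] at hj
        have h1 : (th f q F).coeff j * x ^ j - (th f q F).coeff j * y ^ j =
            (th f q F).coeff j * (x ^ j - y ^ j) := by ring
        rw [h1, abs_mul, mul_assoc]
        have h2 := pow_diff N x y hN0 hx hy j
        rcases Nat.eq_zero_or_pos j with h0 | h0
        · subst h0
          simp only [pow_zero, sub_self, abs_zero, zero_mul, mul_zero]
          have := h.T_nn
          positivity
        · have h3 := h.app j h0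
          rw [← th_coeff] at h3
          calc |(th f q F).coeff j| * (|x ^ j - y ^ j| * N)
              ≤ |(th f q F).coeff j| * (j * (N : ℝ) ^ j * |x - y|) :=
                mul_le_mul_of_nonneg_left h2 (abs_nonneg _)
            _ = j * (|(th f q F).coeff j| * (N : ℝ) ^ j) * |x - y| := by ring
            _ ≤ j * T * |x - y| := by
                apply mul_le_mul_of_nonneg_right _ (abs_nonneg _)
                exact mul_le_mul_of_nonneg_left h3 (Nat.cast_nonneg _)
            _ ≤ (D + 1 : ℝ) * T * |x - y| := by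
                apply mul_le_mul_of_nonneg_right _ (abs_nonneg _)
                apply mul_le_mul_of_nonneg_right _ h.T_nn
                have : (j : ℝ) ≤ D := by exact_mod_cast Nat.lt_succ_iff.1 hj
                linarith
    _ = (D + 1) ^ 2 * T * |x - y| := by
        rw [Finset.sum_const, Finset.card_range, nsmul_eq_mul]
        push_cast
        ring

open Classical in
/-- the count in one block -/
lemma block (f : ℝ[X]) (N q : ℕ) (F : ℤ[X]) (T u δ w B : ℝ) (hq : 1 ≤ q) (a L : ℕ)
    (hδ : 0 < δ) (hδ1 : 5 * δ ≤ 1)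
    (hvar : ∀ t < L, |(th f q F).eval ((a + t : ℕ) : ℝ) - w| ≤ δ)
    (hα : |(((Finset.range L).filter fun n =>
      Int.fract (f.eval ((a + n : ℕ) : ℝ) / (1 : ℕ) - (w + u / q - 2 * δ)) <
        (w + u / q + 3 * δ) - (w + u / q - 2 * δ)).card : ℝ) -
          ((w + u / q + 3 * δ) - (w + u / q - 2 * δ)) * L| ≤ B)
    (P : ℕ → Prop) (hP : ∀ n, P n → |(sn f q F n : ℝ) - u| ≤ δ * q) :
    (Nat.count (fun t => P (a + t)) L : ℝ) ≤ 5 * δ * L + B := by
  have hq' : (0 : ℝ) < q := by positivity
  have hsub : (Finset.range L).filter (fun t => P (a + t)) ⊆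
      (Finset.range L).filter fun n =>
      Int.fract (f.eval ((a + n : ℕ) : ℝ) / (1 : ℕ) - (w + u / q - 2 * δ)) <
        (w + u / q + 3 * δ) - (w + u / q - 2 * δ) := by
    intro t ht
    rw [Finset.mem_filter, Finset.mem_range] at ht
    rw [Finset.mem_filter, Finset.mem_range]
    refine ⟨ht.1, ?_⟩
    have h1 := hP _ ht.2
    have h2 := hvar t ht.1
    have h3 := sn_eq f q hq F (a + t)
    have h4 : (sn f q F (a + t) : ℝ) - u =
        q * (Int.fract (f.eval ((a + t : ℕ) : ℝ)) - (th f q F).eval ((a + t : ℕ) : ℝ) - u / q) := by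
      field_simp
      linarith
    rw [h4, abs_mul, abs_of_pos hq', mul_comm δ] at h1
    have h5 := le_of_mul_le_mul_left h1 hq'
    rw [abs_le] at h2 h5
    have h6 : f.eval ((a + t : ℕ) : ℝ) / ((1 : ℕ) : ℝ) - (w + u / q - 2 * δ) =
        (⌊f.eval ((a + t : ℕ) : ℝ)⌋ : ℝ) +
          (Int.fract (f.eval ((a + t : ℕ) : ℝ)) - (w + u / q - 2 * δ)) := by
      have := Int.floor_add_fract (f.eval ((a + t : ℕ) : ℝ))
      push_cast
      push_cast at this
      linarith
    rw [h6, Int.fract_intCast_add]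
    have h7 : Int.fract (Int.fract (f.eval ((a + t : ℕ) : ℝ)) - (w + u / q - 2 * δ)) =
        Int.fract (f.eval ((a + t : ℕ) : ℝ)) - (w + u / q - 2 * δ) := by
      rw [Int.fract_eq_self]
      constructor
      · linarith
      · linarith
    rw [h7]
    linarith
  have h8 := Finset.card_le_card hsub
  rw [← Nat.count_eq_card_filter_range] at h8
  have h9 : (Nat.count (fun t => P (a + t)) L : ℝ) ≤ (((Finset.range L).filter fun n =>
      Int.fract (f.eval ((a + n : ℕ) : ℝ) / (1 : ℕ) - (w + u / q - 2 * δ)) <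
        (w + u / q + 3 * δ) - (w + u / q - 2 * δ)).card : ℝ) := by exact_mod_cast h8
  have h10 := (abs_le.1 hα).2
  have h11 : ((w + u / q + 3 * δ) - (w + u / q - 2 * δ)) * L = 5 * δ * L := by ring
  linarith

theorem main (hA : S_ALPHA) (hS : S_SUBI) : S_INT := by
  classical
  intro f hf ε₀ hε₀
  set D := f.natDegree with hD
  obtain ⟨ε, hε, hε1, hεε⟩ : ∃ ε : ℝ, 0 < ε ∧ ε ≤ 1 ∧ ε ≤ ε₀ :=
    ⟨min ε₀ 1, lt_min hε₀ one_pos, min_le_right _ _, min_le_left _ _⟩
  obtain ⟨c1, C1, hc1, hS'⟩ := hS D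
  obtain ⟨c, M2, hc, hcl, hA'⟩ := hA D hf
  set τ : ℝ := ε / 2 with hτ
  have hτ0 : 0 < τ := by positivity
  have hτD : 0 < c1 * τ ^ D := by positivity
  set T0 : ℝ := max 1 (2 / (c1 * τ ^ D)) with hT0
  have hT01 : 1 ≤ T0 := le_max_left _ _
  have hT02 : 2 / (c1 * τ ^ D) ≤ T0 := le_max_right _ _
  set δ : ℝ := ε / 20 with hδ
  have hδ0 : 0 < δ := by positivity
  set η : ℝ := min (c1 * τ ^ D / 4) (δ / (1 + T0)) with hη
  have hη0 : 0 < η := by
    apply lt_min
    · positivity
    · positivity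
  have hη1 : η ≤ c1 * τ ^ D / 4 := min_le_left _ _
  have hη2 : η * (1 + T0) ≤ δ := by
    have : η ≤ δ / (1 + T0) := min_le_right _ _
    rwa [le_div_iff₀ (by positivity)] at this
  obtain ⟨J, hJ1, hJ2, hJ3⟩ : ∃ J : ℕ, 1 ≤ J ∧ 4 / ε ≤ J ∧ (D + 1) ^ 2 * T0 / δ ≤ J := by
    obtain ⟨J, hJ⟩ := exists_nat_ge (max 1 (max (4 / ε) ((D + 1) ^ 2 * T0 / δ)))
    refine ⟨J, ?_, ?_, ?_⟩
    · have : (1 : ℝ) ≤ J := (le_max_left _ _).trans hJ
      exact_mod_cast this
    · exact ((le_max_left _ _).trans (le_max_right _ _)).trans hJ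
    · exact ((le_max_right _ _).trans (le_max_right _ _)).trans hJ
  have hJ0 : (0 : ℝ) < J := by positivity
  obtain ⟨M3, hM3⟩ : ∃ M3 : ℝ, ∀ M, M3 ≤ M → M ^ (-c) ≤ ε / (8 * J) := by
    have h := (tendsto_rpow_neg_atTop hc).eventually (ge_mem_nhds (show (0 : ℝ) < ε / (8 * J) by positivity))
    obtain ⟨M3, h3⟩ := eventually_atTop.1 h
    exact ⟨M3, h3⟩
  refine ⟨η, max 1 (max M2 (max M3 (max J (2 * C1 / ε)))), hη0, ?_⟩
  intro N q F T M hdat hM hMN u
  have hM1 : 1 ≤ M := (le_max_left _ _).trans hM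
  have hM' := (le_max_right _ _).trans hM
  have hMM2 : M2 ≤ M := (le_max_left _ _).trans hM'
  have hM'' := (le_max_right _ _).trans hM'
  have hMM3 : M3 ≤ M := (le_max_left _ _).trans hM''
  have hM''' := (le_max_right _ _).trans hM''
  have hMJ : (J : ℝ) ≤ M := (le_max_left _ _).trans hM'''
  have hMC : 2 * C1 / ε ≤ M := (le_max_right _ _).trans hM'''
  have hMN' : M ≤ N := by nlinarith
  have hNpos : (0 : ℝ) < N := by linarith
  have hN1 : 1 ≤ N := by
    have : 0 < N := by exact_mod_cast hNpos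
    omega
  have hq := hdat.toApp.q_pos
  have hq' : (0 : ℝ) < q := by positivity
  have hT := hdat.toApp.T_nn
  rw [hdat.hM]
  by_cases hTT : T0 ≤ T
  · -- the polynomial itself is large
    obtain ⟨j, hj1, hj2⟩ := hdat.sharp
    set θ : ℝ[X] := th f q F + C (u / q) with hθ
    have hθd : θ.natDegree ≤ D := by
      apply (natDegree_add_le _ _).trans
      apply max_le (th_deg hdat.toApp.deg)
      rw [natDegree_C]
      exact Nat.zero_le _
    have hTpos : 0 < T := by linarith
    have hcoef : θ.coeff j = (th f q F).coeff j := by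
      rw [hθ, coeff_add, coeff_C, if_neg (by omega), add_zero]
    have h1 := hS' θ N T hθd hN1 hTpos ⟨j, by rw [hcoef, th_coeff, hj2]⟩
      (c1 * τ ^ D * T) τ hτ0 (by rw [hτ]; linarith) le_rfl
    have h2 : cnt N (fun n => |(sn f q F n : ℝ) - u| ≤ η * (q * (1 + T))) ≤
        cnt N (fun n => |θ.eval (n : ℝ)| ≤ c1 * τ ^ D * T) := by
      unfold cnt
      apply Nat.cast_le.2
      apply Finset.card_le_card
      intro n hn
      rw [Finset.mem_filter] at hn ⊢
      refine ⟨hn.1, ?_⟩
      have h3 := sn_eq f q hq F n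
      have h4 : q * θ.eval (n : ℝ) = q * Int.fract (f.eval (n : ℝ)) - ((sn f q F n : ℝ) - u) := by
        rw [hθ, eval_add, eval_C]
        field_simp
        linarith
      have h5 : |(q : ℝ) * θ.eval (n : ℝ)| ≤ q * 1 + η * (q * (1 + T)) := by
        rw [h4]
        apply (abs_sub _ _).trans
        apply add_le_add _ hn.2
        rw [abs_of_nonneg (mul_nonneg hq'.le (Int.fract_nonneg _))]
        exact mul_le_mul_of_nonneg_left (Int.fract_lt_one _).le hq'.le
      rw [abs_mul, abs_of_pos hq'] at h5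
      have h6 : q * 1 + η * (q * (1 + T)) = q * (1 + η * (1 + T)) := by ring
      rw [h6] at h5
      have h7 := le_of_mul_le_mul_left h5 hq'
      apply h7.trans
      have h8 : η * (1 + T) ≤ c1 * τ ^ D / 4 * (2 * T) := by
        apply mul_le_mul hη1 (by linarith) (by linarith) (by positivity)
      have h9 : 1 ≤ c1 * τ ^ D / 2 * T := by
        have : 2 / (c1 * τ ^ D) ≤ T := hT02.trans hTT
        rw [div_le_iff₀ hτD] at this
        linarith
      linarith
    have h3 : C1 ≤ ε / 2 * N := by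
      rw [div_le_iff₀ hε] at hMC
      nlinarith
    have h4 : ε * N ≤ ε₀ * N := mul_le_mul_of_nonneg_right hεε hNpos.le
    have h5 : τ * N = ε / 2 * N := rfl
    linarith
  · -- bounded polynomial
    push Not at hTT
    set L := N / J with hL
    have hJN : J ≤ N := by
      have : (J : ℝ) ≤ N := hMJ.trans hMN'
      exact_mod_cast this
    have hL1 : 1 ≤ L := (Nat.one_le_div_iff (by omega)).2 hJN
    have hLN : (L : ℝ) ≤ N / J := by
      rw [hL]; exact Nat.cast_div_le
    have hNL : (N : ℝ) ≤ 2 * J * L := by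
      have h1 : N < (L + 1) * J := by
        have h2 := Nat.div_add_mod N J
        have h3 := Nat.mod_lt N (show J > 0 by omega)
        have h4 : (L + 1) * J = J * (N / J) + J := by rw [hL]; ring
        omega
      have h2 : N ≤ 2 * J * L := by
        have h3 : (L + 1) * J ≤ 2 * J * L := by nlinarith
        omega
      exact_mod_cast h2
    have hLpos : (0 : ℝ) < L := by positivity
    set B : ℝ := N * M ^ (-c) with hB
    have hB0 : 0 ≤ B := by positivity
    set P : ℕ → Prop := fun n => |(sn f q F n : ℝ) - u| ≤ η * (q * (1 + T)) with hPdef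
    have hP : ∀ n, P n → |(sn f q F n : ℝ) - u| ≤ δ * q := by
      intro n hn
      apply le_trans hn
      have h1 : η * (1 + T) ≤ δ :=
        (mul_le_mul_of_nonneg_left (by linarith) hη0.le).trans hη2
      have h2 : η * (q * (1 + T)) = η * (1 + T) * q := by ring
      rw [h2]
      exact mul_le_mul_of_nonneg_right h1 hq'.le
    have hblock : ∀ i ∈ Finset.range (N / L),
        (Nat.count (fun t => P (1 + i * L + t)) L : ℝ) ≤ 5 * δ * L + B := by
      intro i hi
      rw [Finset.mem_range] at hi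
      have haL : 1 + i * L + L ≤ N + 1 := by
        have h1 : (i + 1) * L ≤ N / L * L := Nat.mul_le_mul_right _ hi
        have h2 := Nat.div_mul_le_self N L
        have h3 : (i + 1) * L = i * L + L := by ring
        omega
      apply block f N q F T u δ ((th f q F).eval ((1 + i * L : ℕ) : ℝ)) B hq (1 + i * L) L hδ0
        (by rw [hδ]; linarith) _ _ P hP
      · intro t ht
        have hb1 : ((1 + i * L + t : ℕ) : ℝ) ≤ N := by
          have : 1 + i * L + t ≤ N := by omega
          exact_mod_cast this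
        have hb2 : ((1 + i * L : ℕ) : ℝ) ≤ N := by
          have : 1 + i * L ≤ N := by omega
          exact_mod_cast this
        have h1 := th_var hdat.toApp hN1 ((1 + i * L + t : ℕ) : ℝ) ((1 + i * L : ℕ) : ℝ)
          (by rw [abs_of_nonneg (Nat.cast_nonneg _)]; exact hb1)
          (by rw [abs_of_nonneg (Nat.cast_nonneg _)]; exact hb2)
        have h2 : |((1 + i * L + t : ℕ) : ℝ) - ((1 + i * L : ℕ) : ℝ)| ≤ N / J := by
          have h3 : ((1 + i * L + t : ℕ) : ℝ) - ((1 + i * L : ℕ) : ℝ) = t := by push_cast; ring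
          rw [h3, abs_of_nonneg (Nat.cast_nonneg _)]
          have : (t : ℝ) ≤ L := by exact_mod_cast ht.le
          exact this.trans hLN
        have h4 : (D + 1 : ℝ) ^ 2 * T * |((1 + i * L + t : ℕ) : ℝ) - ((1 + i * L : ℕ) : ℝ)| ≤
            δ * N := by
          calc (D + 1 : ℝ) ^ 2 * T * |((1 + i * L + t : ℕ) : ℝ) - ((1 + i * L : ℕ) : ℝ)|
              ≤ (D + 1 : ℝ) ^ 2 * T0 * (N / J) := by
                apply mul_le_mul _ h2 (abs_nonneg _) (by positivity)
                exact mul_le_mul_of_nonneg_left hTT.le (by positivity)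
            _ = (D + 1 : ℝ) ^ 2 * T0 / J * N := by ring
            _ ≤ δ * N := by
                apply mul_le_mul_of_nonneg_right _ hNpos.le
                rw [div_le_iff₀ hJ0]
                rw [div_le_iff₀ hδ0] at hJ3
                linarith
        exact le_of_mul_le_mul_right (h1.trans h4) hNpos
      · exact hA' f N q F T M hD.symm hN1 hdat hMM2 1 (1 + i * L) L le_rfl
          (by push_cast; exact Real.one_le_rpow hM1 hc.le) haL _ _ (by linarith)
          (by rw [hδ]; linarith)
    have hcount : (cnt N P : ℝ) ≤ (N / L : ℕ) * (5 * δ * L + B) + L := by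
      rw [cnt_eq]
      have h1 : (Nat.count (fun n => P (1 + n)) N : ℝ) ≤
          ∑ i ∈ Finset.range (N / L), (Nat.count (fun t => P (1 + i * L + t)) L : ℝ) +
            (N % L : ℕ) := by exact_mod_cast count_le_blocks P N L
      have h2 : ∑ i ∈ Finset.range (N / L), (Nat.count (fun t => P (1 + i * L + t)) L : ℝ) ≤
          (N / L : ℕ) * (5 * δ * L + B) := by
        have h3 := Finset.sum_le_sum hblock
        rwa [Finset.sum_const, Finset.card_range, nsmul_eq_mul] at h3
      have h4 : ((N % L : ℕ) : ℝ) ≤ L := by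
        have := (Nat.mod_lt N (show L > 0 by omega)).le
        exact_mod_cast this
      linarith
    have hK1 : ((N / L : ℕ) : ℝ) * L ≤ N := by exact_mod_cast Nat.div_mul_le_self N L
    have hK2 : ((N / L : ℕ) : ℝ) ≤ 2 * J := by
      have h1 : ((N / L : ℕ) : ℝ) ≤ N / L := Nat.cast_div_le
      apply h1.trans
      rw [div_le_iff₀ hLpos]
      exact hNL
    have hB1 : 2 * J * B ≤ ε / 4 * N := by
      have h1 := hM3 M hMM3
      have h2 : 2 * J * B = 2 * J * M ^ (-c) * N := by rw [hB]; ring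
      rw [h2]
      apply mul_le_mul_of_nonneg_right _ hNpos.le
      rw [le_div_iff₀ (by positivity)] at h1
      linarith
    have hL2 : (L : ℝ) ≤ ε / 4 * N := by
      apply hLN.trans
      rw [div_le_iff₀ hJ0]
      rw [div_le_iff₀ hε] at hJ2
      nlinarith
    have hfin : (N / L : ℕ) * (5 * δ * L + B) + L ≤ ε * N := by
      have h1 : ((N / L : ℕ) : ℝ) * (5 * δ * L + B) = 5 * δ * (((N / L : ℕ) : ℝ) * L) +
          ((N / L : ℕ) : ℝ) * B := by ring
      rw [h1]
      have h2 : 5 * δ * (((N / L : ℕ) : ℝ) * L) ≤ 5 * δ * N :=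
        mul_le_mul_of_nonneg_left hK1 (by positivity)
      have h3 : ((N / L : ℕ) : ℝ) * B ≤ 2 * J * B := mul_le_mul_of_nonneg_right hK2 hB0
      have h4 : 5 * δ * N = ε / 4 * N := by rw [hδ]; ring
      have h5 : 0 < ε * N := by positivity
      linarith
    have h4 : ε * N ≤ ε₀ * N := mul_le_mul_of_nonneg_right hεε hNpos.le
    linarith

end Pool.Agent.Helper52.EP.INT
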